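import Pool.Agent.Helper9.CC.Stm
import Pool.Agent.Helper64.FL.Slp

/-!
Project CC (helper9), package WT (helper13): the weights of the monomials of sections, in the
coordinates given by the Harder-Narasimhan filtrations of the dual bundles (from HN and MIX).
-/

set_option autoImplicit false
set_option linter.unusedSectionVars false

namespace Pool.Agent.Helper13.CC

open FF Module MvPolynomial Pool.Agent.Helper9.FJ Pool.Agent.Helper9.PP Pool.Agent.Helper9.FL
open Pool.Agent.Helper9.CC
open Pool.Agent.Helper64.FL.SlpAux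

section

variable {K : Type} [Field K] [Algebra ℂ K] [IsFF ℂ K] {r : ℕ}

/-- the dual bundle -/
noncomputable def dual (E : Bundle K r) : Bundle K r where
  B P := ((E.B P)⁻¹).transpose
  det_ne P := by
    rw [Matrix.det_transpose]
    have h1 : (E.B P)⁻¹ * E.B P = 1 :=
      Matrix.nonsing_inv_mul _ (isUnit_iff_ne_zero.2 (E.det_ne P))
    have h2 := congrArg Matrix.det h1
    rw [Matrix.det_mul, Matrix.det_one] at h2
    exact left_ne_zero_of_mul_eq_one h2
  fin := E.fin.subset fun P hP h => hP (by rw [h]; simp)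

theorem row_sub {n : ℕ} (p : Fin n → Prop) [DecidablePred p] (v : Fin n → K)
    (hv : ∀ i, ¬ p i → v i = 0) :
    v = ∑ j : {b // p b}, v j.1 • (Pi.single j.1 1 : Fin n → K) := by
  funext i
  rw [Finset.sum_apply]
  simp only [Pi.smul_apply, smul_eq_mul, Pi.single_apply, mul_ite, mul_one, mul_zero]
  by_cases hp : p i
  · rw [Finset.sum_eq_single (⟨i, hp⟩ : {b // p b})]
    · simp
    · intro j _ hj
      rw [if_neg]
      intro h
      exact hj (Subtype.ext h.symm)
    · intro h
      exact absurd (Finset.mem_univ _) h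
  · rw [hv i hp, Finset.sum_eq_zero]
    intro j _
    rw [if_neg]
    intro h
    exact hp (h ▸ j.2)

theorem dual_detDiv (E : Bundle K r) : (dual E).detDiv = -E.detDiv := by
  ext P
  change -P.ord ((E.B P)⁻¹).transpose.det = -(-P.ord (E.B P).det)
  rw [Matrix.det_transpose]
  have h1 : (E.B P)⁻¹ * E.B P = 1 :=
    Matrix.nonsing_inv_mul _ (isUnit_iff_ne_zero.2 (E.det_ne P))
  have h2 := congrArg Matrix.det h1
  rw [Matrix.det_mul, Matrix.det_one] at h2
  have h3 := P.ord_mul (left_ne_zero_of_mul_eq_one h2) (E.det_ne P)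
  rw [h2, P.ord_one] at h3
  omega

end

/-- **Package WT.** -/
theorem wt (hHN : S_HN) (hMIX : S_MIX) : S_WT := by
  classical
  intro K _ _ _ l r E hr
  choose h hh using fun j => hHN (dual (E j)) (hr j)
  refine ⟨fun j => ((h j).G).transpose, fun x => -(h x.1).m x.2, fun j => ?_, fun j => ?_, ?_⟩
  · rw [Matrix.det_transpose]
    exact (h j).hG
  · rw [Finset.sum_neg_distrib]
    have h1 := (h j).hdeg
    have h2 : ddeg (dual (E j)).detDiv = - ddeg (E j).detDiv := by
      rw [dual_detDiv, ddeg_neg]
    rw [h1, h2]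
    push_cast
    ring
  intro a b s hs α hα
  -- the word
  obtain ⟨q, u⟩ : ∃ q, Nonempty (Fin q ≃ Vr r) :=
    ⟨Fintype.card (Vr r), ⟨(Fintype.equivFin (Vr r)).symm⟩⟩
  obtain ⟨u⟩ := u
  obtain ⟨n, x', hx'⟩ := exists_word α
  obtain ⟨t, hx⟩ : ∃ t : Fin n → Fin q, ∑ s, Finsupp.single (u (t s)) 1 = α :=
    ⟨fun s => u.symm (x' s), by simpa using hx'⟩
  set g : MvPolynomial (Vr r) K := coord (fun j => ((h j).G).transpose) s with hg
  have hgps : g = ps (K := K) (ι := fun j => Fin (r j)) (fun j => ((h j).G).transpose) s := rfl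
  obtain ⟨Tf, hTf⟩ : ∃ Tf : MultilinearMap K (fun s : Fin n => Fin (r (u (t s)).1) → K) K,
      ∀ v, Tf v = coeff 0 (PD (ι := fun j => Fin (r j)) (fun s => (u (t s)).1) v g) := by
    refine ⟨((lcoeff K (0 : (Vr r) →₀ ℕ)).comp
      (LinearMap.applyₗ (R := K) g)).compMultilinearMap
        ((MultilinearMap.mkPiAlgebraFin K n (Module.End K
          (MvPolynomial (Vr r) K))).compLinearMap (fun s => DD (ι := fun j => Fin (r j)) (u (t s)).1)), ?_⟩
    intro v
    rfl
  have key : ∑ s, (h (u (t s)).1).m (u (t s)).2 ≤ ddeg b := by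
    refine hMIX (q := q)
      (ι := fun i => {b : Fin (r (u i).1) // (h (u i).1).blk (u i).2 ≤ (h (u i).1).blk b})
      (fun i => (h (u i).1).F (u i).2) (fun i => (h (u i).1).m (u i).2)
      (fun i => ⟨⟨(u i).2, le_rfl⟩⟩) (fun i => (h (u i).1).hS (u i).2) n t
      (fun L => Tf (fun s => Pi.single (L s).1 1)) ?_ b ?_
    · intro h0
      have h1 := congrFun h0 (fun s => ⟨(u (t s)).2, le_rfl⟩)
      beta_reduce at h1
      rw [hTf] at h1
      exact PD_ne (ι := fun j => Fin (r j)) (fun s => u (t s)) g 0 (by rwa [zero_add, hx]) h1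
    · intro P I
      have hF : ∀ (k : Fin n) i j, ((h (u (t k)).1).F (u (t k)).2).B P i j =
          (h (u (t k)).1).C P i.1 j.1 := by
        intro k i j
        rw [(h (u (t k)).1).hF]
        rfl
      have h1 : ∑ J : (∀ k, {b : Fin (r (u (t k)).1) //
            (h (u (t k)).1).blk (u (t k)).2 ≤ (h (u (t k)).1).blk b}),
          (∏ k, ((h (u (t k)).1).F (u (t k)).2).B P (I k) (J k)) *
            Tf (fun k => Pi.single (J k).1 1) =
          Tf (fun k => (h (u (t k)).1).C P (I k).1) := by
        have h2 : (fun k => (h (u (t k)).1).C P (I k).1) =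
            fun k => ∑ j : {b : Fin (r (u (t k)).1) //
              (h (u (t k)).1).blk (u (t k)).2 ≤ (h (u (t k)).1).blk b},
              (h (u (t k)).1).C P (I k).1 j.1 •
                (Pi.single j.1 1 : Fin (r (u (t k)).1) → K) := by
          funext k
          refine row_sub (fun b => (h (u (t k)).1).blk (u (t k)).2 ≤ (h (u (t k)).1).blk b) _ ?_
          intro i hi
          by_contra h0
          exact hi ((I k).2.trans ((h (u (t k)).1).htri P _ _ h0))
        calc _ = ∑ J : (∀ k, {b : Fin (r (u (t k)).1) //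
            (h (u (t k)).1).blk (u (t k)).2 ≤ (h (u (t k)).1).blk b}),
              Tf (fun k => (h (u (t k)).1).C P (I k).1 (J k).1 •
              (Pi.single (J k).1 1 : Fin (r (u (t k)).1) → K)) := by
              refine Finset.sum_congr rfl fun J _ => ?_
              rw [MultilinearMap.map_smul_univ, smul_eq_mul]
              simp only [hF]
          _ = Tf (fun k => ∑ j : {b : Fin (r (u (t k)).1) //
              (h (u (t k)).1).blk (u (t k)).2 ≤ (h (u (t k)).1).blk b},
              (h (u (t k)).1).C P (I k).1 j.1 •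
                (Pi.single j.1 1 : Fin (r (u (t k)).1) → K)) :=
              (MultilinearMap.map_sum Tf (fun k (j : {b : Fin (r (u (t k)).1) //
              (h (u (t k)).1).blk (u (t k)).2 ≤ (h (u (t k)).1).blk b}) =>
                (h (u (t k)).1).C P (I k).1 j.1 •
                (Pi.single j.1 1 : Fin (r (u (t k)).1) → K))).symm
          _ = _ := congrArg Tf h2.symm
      refine (congrArg (Ge P (-b P)) h1).mpr ?_
      -- the adapted bases
      choose X U hX hU hXU hC using fun j => (h j).hC P
      have hrow : ∀ (j : Fin l) (c : Fin (r j)), ((h j).G.transpose).mulVec ((h j).C P c) =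
          ((E j).B P)⁻¹.mulVec (fun i => U j c i) := by
        intro j c
        have h5 : U j * X j = 1 := mul_eq_one_comm.1 (hXU j)
        have h6 : (h j).C P = U j * ((dual (E j)).B P * (h j).G⁻¹) := by
          rw [hC j, ← Matrix.mul_assoc, h5, Matrix.one_mul]
        have h7 : (h j).C P * (h j).G = U j * (dual (E j)).B P := by
          rw [h6, Matrix.mul_assoc, Matrix.mul_assoc,
            Matrix.nonsing_inv_mul _ (isUnit_iff_ne_zero.2 (h j).hG), Matrix.mul_one]
        rw [Matrix.mulVec_transpose]
        have h8 : Matrix.vecMul ((h j).C P c) (h j).G = ((h j).C P * (h j).G) c := rfl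
        rw [h8, h7]
        have h9 : (dual (E j)).B P = (((E j).B P)⁻¹).transpose := rfl
        rw [h9]
        funext i
        rw [Matrix.mul_apply, Matrix.mulVec, dotProduct]
        refine Finset.sum_congr rfl fun k _ => ?_
        rw [Matrix.transpose_apply, mul_comm]
      rw [hTf, hgps, PD_ps, coeff0_ps]
      have h10 : (fun k => ((h (u (t k)).1).G.transpose).mulVec
          ((h (u (t k)).1).C P (I k).1)) =
          fun k => ((E (u (t k)).1).B P)⁻¹.mulVec (fun i => U (u (t k)).1 (I k).1 i) :=
        funext fun k => hrow _ _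
      rw [h10]
      have h11 := PD_ps (K := K) (ι := fun j => Fin (r j)) (fun j => ((E j).B P)⁻¹)
        (fun k => (u (t k)).1) (fun k i => U (u (t k)).1 (I k).1 i) s
      have h12 := congrArg (coeff 0) h11
      rw [coeff0_ps] at h12
      rw [← h12]
      exact ge_PD (ι := fun j => Fin (r j)) (fun k => (u (t k)).1) _ (fun k i => hU _ _ _) _
        (fun β => hs.2 P β) 0
  have h3 : ∑ k, (h (u (t k)).1).m (u (t k)).2 = ∑ x : Vr r, (α x : ℝ) * (h x.1).m x.2 := by
    have h5 : ∀ y : Vr r, (α y : ℝ) = ∑ k, if u (t k) = y then 1 else 0 := by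
      intro y
      rw [← hx, Finsupp.finsetSum_apply]
      push_cast
      refine Finset.sum_congr rfl fun s _ => ?_
      rw [Finsupp.single_apply]
      split_ifs <;> simp
    simp only [h5, Finset.sum_mul]
    rw [Finset.sum_comm]
    refine Finset.sum_congr rfl fun s _ => ?_
    simp only [ite_mul, one_mul, zero_mul]
    rw [Finset.sum_ite_eq]
    simp
  rw [h3] at key
  have h4 : ∑ x : Vr r, (α x : ℝ) * -(h x.1).m x.2 = -∑ x : Vr r, (α x : ℝ) * (h x.1).m x.2 := by
    rw [← Finset.sum_neg_distrib]
    exact Finset.sum_congr rfl fun x _ => by ring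
  rw [h4]
  linarith

end Pool.Agent.Helper13.CC
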